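import Mathlib
import Pool.Agent.Lib.MP_b3b95b_an.Main

/-!
# Bounded extensions of biorthogonal functionals with dense sum

The proof is in `Pool/Agent/Lib/MP_b3b95b_an/Main.lean`: `y ↦ (φ n y)` maps the closed span `Y`
into `c₀` with dense range; Sobczyk's theorem gives bounded, pointwise null extensions to `E`; small
rank one corrections then make them annihilate a vector of `u k + Y` for every `u k` in a dense
sequence.
-/

set_option autoImplicit false

namespace Pool.Agent.Results.MP_b3b95b_an.BoundedExtension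

open TopologicalSpace

/-- **Main theorem.** Let `E` be a separable normed space over `𝕜 = ℝ` or `ℂ` (for instance a
separable Banach space; completeness is not needed), let `(x n)` be a sequence in `E` with closed
linear span `Y`, and let `φ n` be continuous linear functionals on `Y` with `φ i (x j) = δ_{ij}`
and `‖φ n‖ ≤ M`.  Then for every `ε > 0` there are extensions `f n` of the `φ n` to all of `E` with
`‖f n‖ ≤ 2 * M + ε` such that `Y + ⋂ n, ker (f n)` is dense in `E`. -/
theorem result {𝕜 : Type*} [RCLike 𝕜] {E : Type*} [NormedAddCommGroup E] [NormedSpace 𝕜 E]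
    [SeparableSpace E] (x : ℕ → E)
    (φ : ℕ → ((Submodule.span 𝕜 (Set.range x)).topologicalClosure →L[𝕜] 𝕜))
    (hφ : ∀ i j, φ i ⟨x j, Submodule.le_topologicalClosure _
      (Submodule.subset_span (Set.mem_range_self j))⟩ = if i = j then 1 else 0)
    (M : ℝ) (hM : ∀ n, ‖φ n‖ ≤ M) (ε : ℝ) (hε : 0 < ε) :
    ∃ f : ℕ → (E →L[𝕜] 𝕜),
      (∀ n (y : (Submodule.span 𝕜 (Set.range x)).topologicalClosure), f n y = φ n y) ∧
      (∀ n, ‖f n‖ ≤ 2 * M + ε) ∧
      Dense (((Submodule.span 𝕜 (Set.range x)).topologicalClosure ⊔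
        ⨅ n, (f n).ker : Submodule 𝕜 E) : Set E) :=
  Pool.Agent.Lib.MP_b3b95b_an.main x _ rfl _ φ hφ M hM ε hε

end Pool.Agent.Results.MP_b3b95b_an.BoundedExtension
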